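import Pool.Agent.W2helper15.WH.Core
import Pool.Agent.W2helper1.WH.Red
import Pool.Agent.W2helper1.WH.Torus

/-!
# The Whittaker constant is at least `0.736`, hence larger than `2 / e`

The definitions below are those of the problem file.

The proof.  For an admissible `f` of growth below `τ = 0.736` the numbers `b_n = f^(n)(0) / τ ^ n`
tend to `0`, so some `|b_N|` is the largest of all of them (`Red`).  The zeros of `f^(N)`,
`f^(N+1)`, `f^(N+2)`, `f^(N+3)` in the unit disk are combined, with fixed multipliers, to one
linear relation which bounds `|b_N|` by `S |b_N|`, where `S` is, by the maximum principle, at most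
the maximum over a three dimensional torus of a sum of moduli of explicit polynomials, plus a tail
(`W2helper15.WH.Core`).  The maximum is below `0.9997` (`Torus`, a verified subdivision of the
torus into 7975 cells, evaluated by the kernel with integer arithmetic only).
-/

namespace Pool.Agent.Results.MP_9fbcbb_an.AboveTwoOverE

open Filter

/-- `M_r`, the supremum of `|f z|` over `|z| ≤ r`. -/
noncomputable def maxMod (f : ℂ → ℂ) (r : ℝ) : ℝ :=
  sSup ((fun z => ‖f z‖) '' Metric.closedBall (0 : ℂ) r)

/-- The limsup, as `r` tends to infinity, of `(ln M_r) / r`. -/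
noncomputable def growth (f : ℂ → ℂ) : EReal :=
  limsup (fun r : ℝ => ((Real.log (maxMod f r) / r : ℝ) : EReal)) atTop

/-- `f` is entire, and `f` and each of its derivatives has a zero in the closed unit disk. -/
def Admissible (f : ℂ → ℂ) : Prop :=
  Differentiable ℂ f ∧ ∀ n : ℕ, ∃ z : ℂ, ‖z‖ ≤ 1 ∧ iteratedDeriv n f z = 0

/-- The Whittaker constant: the supremum of the `c` such that every admissible entire function
whose growth is smaller than `c` vanishes identically. -/
noncomputable def W : EReal :=
  sSup {c : EReal | ∀ f : ℂ → ℂ, Admissible f → growth f < c → f = 0}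

theorem W_eq : W = Pool.Agent.W2helper1.WH.W := rfl

/-- The Whittaker constant is at least `0.736`; in particular it is larger than `2 / e`. -/
theorem result : ((0.736 : ℝ) : EReal) ≤ W ∧ ((2 / Real.exp 1 : ℝ) : EReal) < W := by
  have h1 : ((0.736 : ℝ) : EReal) ≤ W :=
    Pool.Agent.W2helper1.WH.Red.s_red
      (Pool.Agent.W2helper15.WH.s_core Pool.Agent.W2helper1.WH.torus)
  refine ⟨h1, lt_of_lt_of_le ?_ h1⟩
  have h2 : (2 : ℝ) / Real.exp 1 < 0.736 := by
    have h3 := Real.exp_one_gt_d9
    rw [div_lt_iff₀ (Real.exp_pos 1)]
    linarith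
  exact_mod_cast h2

end Pool.Agent.Results.MP_9fbcbb_an.AboveTwoOverE
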